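import Mathlib

/-!
# Divisibility of binomial coefficients (for Pool/Agent/H85/FW/Comb1)
-/

set_option autoImplicit false

namespace Pool.Agent.H85.FW

/-- `s C(r,s) = r C(r-1,s-1)` -/
theorem choose_dvd_61 {p j r s : ℕ} (hp : p.Prime) (hr : p ^ (j + 1) ∣ r) (hs : 1 ≤ s)
    (hs' : s < p ^ (j + 1)) : p ∣ r.choose s := by
  obtain ⟨s, rfl⟩ : ∃ s', s = s' + 1 := ⟨s - 1, by omega⟩
  rcases Nat.eq_zero_or_pos r with h0 | h0
  · rw [h0, Nat.choose_eq_zero_of_lt (by omega)]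
    exact dvd_zero _
  obtain ⟨r, rfl⟩ : ∃ r', r = r' + 1 := ⟨r - 1, by omega⟩
  by_contra hcon
  have h1 := Nat.add_one_mul_choose_eq r s
  have h2 : p ^ (j + 1) ∣ (r + 1).choose (s + 1) * (s + 1) := by
    rw [← h1]
    exact hr.mul_right _
  have h3 : Nat.Coprime (p ^ (j + 1)) ((r + 1).choose (s + 1)) :=
    Nat.Coprime.pow_left _ ((Nat.Prime.coprime_iff_not_dvd hp).2 hcon)
  have h4 := Nat.le_of_dvd (by omega) (h3.dvd_of_dvd_mul_left h2)
  omega

/-- Lucas: `C(p^j u, p^j)` is `u` modulo `p` -/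
theorem choose_ndvd_61 {N p j : ℕ} (hp : p.Prime) (h1 : p ^ j ∣ N) (h2 : ¬ p ^ (j + 1) ∣ N) :
    ¬ p ∣ N.choose (p ^ j) := by
  have : Fact p.Prime := ⟨hp⟩
  induction j generalizing N with
  | zero =>
    rw [pow_zero, Nat.choose_one_right]
    rwa [zero_add, pow_one] at h2
  | succ j ih =>
    obtain ⟨M, rfl⟩ : p ∣ N := (dvd_pow_self p (by omega)).trans h1
    have h3 : p ^ j ∣ M := by
      rw [pow_succ'] at h1
      exact Nat.dvd_of_mul_dvd_mul_left hp.pos h1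
    have h4 : ¬ p ^ (j + 1) ∣ M := by
      intro h5
      apply h2
      rw [pow_succ']
      exact Nat.mul_dvd_mul_left p h5
    have h5 := Choose.choose_modEq_choose_mod_mul_choose_div_nat (p := p) (n := p * M)
      (k := p ^ (j + 1))
    rw [pow_succ', Nat.mul_mod_right, Nat.mul_mod_right, Nat.mul_div_cancel_left _ hp.pos,
      Nat.mul_div_cancel_left _ hp.pos, Nat.choose_zero_right, one_mul] at h5
    rw [pow_succ']
    intro h6
    exact ih h3 h4 ((Nat.ModEq.dvd_iff h5 dvd_rfl).1 h6)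

end Pool.Agent.H85.FW
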